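import Pool.Agent.Helper56.DioDefs
import Pool.Agent.Helper74.KM.Seven
import Pool.Agent.Helper83.KM.Main5

open Pool.Agent.Helper83.KM Pool.Agent.Helper56.Dio

/-- Diophantine graphs are sparse: there is a number `N` such that no Diophantine graph contains
`K_{4,N}` or `K_{10,10}`, and every Diophantine graph with `n` vertices has at most
`9 n ^ (3 / 2)` edges. -/
theorem Pool.Agent.Results.MP_85da37_lc.CompleteBipartite.result :
    ∃ N : ℕ, ∀ (V : Type) (G : SimpleGraph V), IsDiophantine G →
      ¬ (completeBipartiteGraph (Fin 4) (Fin N)).IsContained G ∧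
      ¬ (completeBipartiteGraph (Fin 10) (Fin 10)).IsContained G ∧
      (∀ [Fintype V] [DecidableRel G.Adj],
        (G.edgeFinset.card : ℝ) ≤ 9 * (Fintype.card V : ℝ) ^ (3 / 2 : ℝ)) := by
  obtain ⟨N, hN⟩ := Main4.graph
  exact ⟨N, fun V G hG => ⟨hN V G hG, Pool.Agent.Helper74.KM.graph10 V G hG,
    fun {_ _} => Main5.edge V G hG⟩⟩
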