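import Pool.Agent.Helper59.AP.Fin

open Pool.Agent.Helper59.AP

/-- Every planar 3-tree (a graph built from a triangle by repeatedly putting a new vertex into a
free triangular face and joining it to the three corners) is Diophantine, and so is every graph
which embeds into one as an induced subgraph. -/
theorem Pool.Agent.Results.MP_85da37_lc.PlanarThreeTrees.result {V W : Type*} [Fintype V]
    [DecidableEq V] (G : SimpleGraph V) (F : Finset (V × V × V))
    (hG : Network G Finset.univ F) (H : SimpleGraph W) (φ : H ↪g G) :
    Pool.Agent.Helper56.Dio.IsDiophantine H :=
  Pool.Agent.Helper59.AP.result G F hG H φ
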