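import Pool.Agent.Helper59.DM.Fin

/-- A finite graph of maximum degree at most 3, each cubic component of which contains two
triangles with a common edge, is Diophantine. -/
theorem Pool.Agent.Results.MP_85da37_lc.SubcubicDiamonds.result {V : Type*} [Fintype V]
    [DecidableEq V] (G : SimpleGraph V) [DecidableRel G.Adj] (hdeg : ∀ v, G.degree v ≤ 3)
    (hcub : ∀ v, (∀ u, G.Reachable v u → G.degree u = 3) →
      ∃ a b c d, G.Reachable v a ∧ c ≠ d ∧ G.Adj a b ∧ G.Adj a c ∧ G.Adj a d ∧ G.Adj b c ∧
        G.Adj b d) :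
    Pool.Agent.Helper56.Dio.IsDiophantine G :=
  Pool.Agent.Helper59.DM.subcubic G hdeg hcub
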