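import Pool.Agent.Helper56.DioDefs
import Pool.Agent.Helper56.DioGraph

open Pool.Agent.Helper56.Dio

/-- Every finite graph that can be built from the empty graph by adding vertices with at most two
earlier neighbours, and by joining paths to the two ends of an edge, is Diophantine. -/
theorem Pool.Agent.Results.MP_85da37_lc.TwoDegenerate.result {V : Type*} [Fintype V]
    [DecidableEq V] (G : SimpleGraph V) (h : Reachable G Finset.univ) : IsDiophantine G :=
  main h
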